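import Pool.Agent.helper72.ODK.Spec

/-!
# Project ODK, row CTW
-/

set_option autoImplicit false

namespace Pool.Agent.helper72.UP

open Finset

lemma CTW_cnt (n u v : ℕ) (hv : v ≤ n) :
    #(univ.filter (fun i : Fin n => u ≤ i.val ∧ i.val < v)) = v - u := by
  rw [card_filter, Fin.sum_univ_eq_sum_range (fun i => if u ≤ i ∧ i < v then 1 else 0) n, ← card_filter]
  have h1 : (range n).filter (fun i => u ≤ i ∧ i < v) = Ico u v := by
    ext i
    simp only [mem_filter, mem_range, mem_Ico]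
    omega
  rw [h1, Nat.card_Ico]

lemma CTW_cap {n : ℕ} {A B S T R : Finset (Fin n)} (hAB : Disjoint A B) (hR : Disjoint R A) (hR' : Disjoint R B)
    (hS : S ⊆ A) (hT : T ⊆ B) : (R ∪ (S ∪ T)) ∩ A = S ∧ (R ∪ (S ∪ T)) ∩ B = T := by
  constructor
  · ext i
    simp only [mem_inter, mem_union]
    constructor
    · rintro ⟨h | h | h, h2⟩
      · exact absurd h2 (disjoint_left.1 hR h)
      · exact h
      · exact absurd (hT h) (disjoint_left.1 hAB h2)
    · intro h
      exact ⟨Or.inr (Or.inl h), hS h⟩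
  · ext i
    simp only [mem_inter, mem_union]
    constructor
    · rintro ⟨h | h | h, h2⟩
      · exact absurd h2 (disjoint_left.1 hR' h)
      · exact absurd h2 (disjoint_left.1 hAB (hS h))
      · exact h
    · intro h
      exact ⟨Or.inr (Or.inr h), hT h⟩

/-- pairs, joined with a fixed set `R` -/
lemma CTW_inj {n : ℕ} {A B R : Finset (Fin n)} (hAB : Disjoint A B) (hR : Disjoint R A) (hR' : Disjoint R B)
    (I : Finset ℕ) (c : ℕ) :
    #((I.sigma (fun i => (A.powersetCard i) ×ˢ (B.powersetCard (i + c)))).image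
      (fun p : (Σ _ : ℕ, Finset (Fin n) × Finset (Fin n)) => R ∪ (p.2.1 ∪ p.2.2))) =
      ∑ i ∈ I, (#A).choose i * (#B).choose (i + c) := by
  rw [card_image_of_injOn]
  · rw [card_sigma]
    apply sum_congr rfl
    intro i _
    rw [card_product, card_powersetCard, card_powersetCard]
  · rintro ⟨i, S, T⟩ hp ⟨i', S', T'⟩ hp' h
    obtain ⟨-, h2⟩ := mem_sigma.1 (mem_coe.1 hp)
    obtain ⟨h3, h4⟩ := mem_product.1 h2
    obtain ⟨h5, h6⟩ := mem_powersetCard.1 h3
    obtain ⟨h7, h8⟩ := mem_powersetCard.1 h4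
    obtain ⟨-, k2⟩ := mem_sigma.1 (mem_coe.1 hp')
    obtain ⟨k3, k4⟩ := mem_product.1 k2
    obtain ⟨k5, k6⟩ := mem_powersetCard.1 k3
    obtain ⟨k7, k8⟩ := mem_powersetCard.1 k4
    have h' : R ∪ (S ∪ T) = R ∪ (S' ∪ T') := h
    have h5' : S ⊆ A := h5
    have h7' : T ⊆ B := h7
    have k5' : S' ⊆ A := k5
    have k7' : T' ⊆ B := k7
    have e1 : S = S' :=
      calc S = (R ∪ (S ∪ T)) ∩ A := (CTW_cap hAB hR hR' h5' h7').1.symm
        _ = (R ∪ (S' ∪ T')) ∩ A := by rw [h']
        _ = S' := (CTW_cap hAB hR hR' k5' k7').1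
    have e2 : T = T' :=
      calc T = (R ∪ (S ∪ T)) ∩ B := (CTW_cap hAB hR hR' h5' h7').2.symm
        _ = (R ∪ (S' ∪ T')) ∩ B := by rw [h']
        _ = T' := (CTW_cap hAB hR hR' k5' k7').2
    have e3 : i = i' := by
      have h6' : #S = i := h6
      have k6' : #S' = i' := k6
      rw [← h6', ← k6', e1]
    subst e1 e2 e3
    rfl

theorem CTW : CTW_stmt := by
  classical
  intro n K hn
  have hab : (n - 1) / 2 + n / 2 + 1 = n := by omega
  let z0 : Fin n := ⟨0, hn⟩
  let x : Fin n → ℝ := fun i => if i.val < 1 then 2 else if i.val < (n - 1) / 2 + 1 then 1 else -1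
  let A : Finset (Fin n) := univ.filter (fun i => 1 ≤ i.val ∧ i.val < (n - 1) / 2 + 1)
  let B : Finset (Fin n) := univ.filter (fun i => (n - 1) / 2 + 1 ≤ i.val ∧ i.val < n)
  have hA : #A = (n - 1) / 2 := by
    have := CTW_cnt n 1 ((n - 1) / 2 + 1) (by omega)
    rw [Nat.add_sub_cancel] at this
    exact this
  have hB : #B = n / 2 := by
    have := CTW_cnt n ((n - 1) / 2 + 1) n le_rfl
    have h2 : n - ((n - 1) / 2 + 1) = n / 2 := by omega
    rw [h2] at this
    exact this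
  have mA : ∀ i, i ∈ A ↔ 1 ≤ i.val ∧ i.val < (n - 1) / 2 + 1 := fun i => by simp [A]
  have mB : ∀ i, i ∈ B ↔ (n - 1) / 2 + 1 ≤ i.val ∧ i.val < n := fun i => by simp [B]
  have hxA : ∀ i ∈ A, x i = 1 := by
    intro i hi
    rw [mA] at hi
    show (if i.val < 1 then (2 : ℝ) else if i.val < (n - 1) / 2 + 1 then 1 else -1) = 1
    rw [if_neg (by omega), if_pos hi.2]
  have hxB : ∀ i ∈ B, x i = -1 := by
    intro i hi
    rw [mB] at hi
    show (if i.val < 1 then (2 : ℝ) else if i.val < (n - 1) / 2 + 1 then 1 else -1) = -1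
    rw [if_neg (by omega), if_neg (by omega)]
  have hx0 : x z0 = 2 := by
    show (if (0 : ℕ) < 1 then (2 : ℝ) else if 0 < (n - 1) / 2 + 1 then 1 else -1) = 2
    rw [if_pos (by norm_num)]
  have z0A : z0 ∉ A := by
    rw [mA]
    show ¬ (1 ≤ 0 ∧ 0 < (n - 1) / 2 + 1)
    omega
  have z0B : z0 ∉ B := by
    rw [mB]
    show ¬ ((n - 1) / 2 + 1 ≤ 0 ∧ 0 < n)
    omega
  have hAB : Disjoint A B := by
    rw [disjoint_left]
    intro i h1 h2
    rw [mA] at h1
    rw [mB] at h2
    omega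
  have sA : ∀ S, S ⊆ A → ∑ i ∈ S, x i = (#S : ℝ) := by
    intro S hS
    rw [sum_congr rfl (fun i hi => hxA i (hS hi))]
    simp
  have sB : ∀ T, T ⊆ B → ∑ i ∈ T, x i = -(#T : ℝ) := by
    intro T hT
    rw [sum_congr rfl (fun i hi => hxB i (hT hi))]
    simp
  refine ⟨x, ?_, ?_⟩
  · intro i
    show (if i.val < 1 then (2 : ℝ) else if i.val < (n - 1) / 2 + 1 then 1 else -1) ≠ 0
    split_ifs <;> norm_num
  have c1 := CTW_inj hAB (disjoint_empty_left A) (disjoint_empty_left B) (Icc 1 K) 0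
  have c2 := CTW_inj hAB (R := {z0}) (disjoint_singleton_left.2 z0A) (disjoint_singleton_left.2 z0B) (range K) 2
  rw [hA, hB] at c1 c2
  have hW : WW n K = ∑ i ∈ Icc 1 K, ((n - 1) / 2).choose i * (n / 2).choose (i + 0) +
      ∑ i ∈ range K, ((n - 1) / 2).choose i * (n / 2).choose (i + 2) := rfl
  rw [hW, ← c1, ← c2, ← card_union_of_disjoint]
  · unfold zer
    apply card_le_card
    intro s hs
    rw [mem_filter]
    refine ⟨mem_univ _, ?_⟩
    rcases mem_union.1 hs with h | h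
    · obtain ⟨⟨i, S, T⟩, hp, rfl⟩ := mem_image.1 h
      obtain ⟨h1, h2⟩ := mem_sigma.1 hp
      obtain ⟨h3, h4⟩ := mem_product.1 h2
      obtain ⟨h5, h6⟩ := mem_powersetCard.1 h3
      obtain ⟨h7, h8⟩ := mem_powersetCard.1 h4
      simp only at h1 h5 h6 h7 h8 ⊢
      rw [mem_Icc] at h1
      have hd : Disjoint S T := disjoint_of_subset_left h5 (disjoint_of_subset_right h7 hAB)
      rw [empty_union]
      refine ⟨?_, ?_, ?_⟩
      · rw [← card_pos, card_union_of_disjoint hd]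
        omega
      · rw [card_union_of_disjoint hd]
        omega
      · rw [sum_union hd, sA S h5, sB T h7, h6, h8]
        simp
    · obtain ⟨⟨i, S, T⟩, hp, rfl⟩ := mem_image.1 h
      obtain ⟨h1, h2⟩ := mem_sigma.1 hp
      obtain ⟨h3, h4⟩ := mem_product.1 h2
      obtain ⟨h5, h6⟩ := mem_powersetCard.1 h3
      obtain ⟨h7, h8⟩ := mem_powersetCard.1 h4
      simp only at h1 h5 h6 h7 h8 ⊢
      rw [mem_range] at h1
      have hd : Disjoint S T := disjoint_of_subset_left h5 (disjoint_of_subset_right h7 hAB)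
      have hz : Disjoint {z0} (S ∪ T) := by
        rw [disjoint_singleton_left, mem_union]
        rintro (h | h)
        · exact z0A (h5 h)
        · exact z0B (h7 h)
      refine ⟨⟨z0, mem_union_left _ (mem_singleton_self _)⟩, ?_, ?_⟩
      · rw [card_union_of_disjoint hz, card_union_of_disjoint hd, card_singleton]
        omega
      · rw [sum_union hz, sum_singleton, sum_union hd, sA S h5, sB T h7, h6, h8, hx0]
        push_cast
        ring
  · rw [disjoint_left]
    intro s h1 h2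
    obtain ⟨⟨i, S, T⟩, hp, rfl⟩ := mem_image.1 h1
    obtain ⟨-, q2⟩ := mem_sigma.1 hp
    obtain ⟨q3, q4⟩ := mem_product.1 q2
    obtain ⟨q5, -⟩ := mem_powersetCard.1 q3
    obtain ⟨q7, -⟩ := mem_powersetCard.1 q4
    obtain ⟨⟨i', S', T'⟩, hp', e⟩ := mem_image.1 h2
    have hz : z0 ∈ ({z0} : Finset (Fin n)) ∪ (S' ∪ T') := mem_union_left _ (mem_singleton_self _)
    have e' : ({z0} : Finset (Fin n)) ∪ (S' ∪ T') = ∅ ∪ (S ∪ T) := e
    rw [e', empty_union, mem_union] at hz
    rcases hz with h | h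
    · exact z0A (q5 h)
    · exact z0B (q7 h)

end Pool.Agent.helper72.UP
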